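import Pool.Agent.N795.BV.Stm

set_option autoImplicit false

open Polynomial

namespace Pool.Agent.N795.BV

namespace H335

theorem log_low {q Φ : ℝ} (hq : -(1 / 2) ≤ q) (h : 1 + q ≤ Φ) : q - 2 * q ^ 2 ≤ Real.log Φ := by
  have h1 : 0 < 1 + q := by linarith
  have h2 := Real.one_sub_inv_le_log_of_pos h1
  have h3 : Real.log (1 + q) ≤ Real.log Φ := Real.log_le_log h1 h
  have h4 : q - 2 * q ^ 2 ≤ 1 - (1 + q)⁻¹ := by
    have e : 1 - (1 + q)⁻¹ = q / (1 + q) := by field_simp; ring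
    rw [e, le_div_iff₀ h1]
    nlinarith [mul_nonneg (sq_nonneg q) (by linarith : 0 ≤ 1 + 2 * q)]
  linarith

theorem core (m : ℕ) (hm : 2 ≤ m) (K : ℝ) (hK : 0 < K) : ∃ ε : ℝ, 0 < ε ∧ ε ≤ 1 / 2 ∧
    ∀ (x y : Fin m → ℝ) (η L Φ : ℝ), 0 < η → η ≤ ε → (∀ i, x i ^ 2 + y i ^ 2 ≤ η ^ 2) →
      (∃ i, x i ^ 2 + y i ^ 2 = η ^ 2) → ∑ i, x i = 0 →
      (∀ i, x i + (x i ^ 2 - y i ^ 2) / 2 - η ^ 3 ≤ L) →
      1 + ((m : ℝ) + 1) / (2 * ((m : ℝ) - 1)) * ∑ i, (y i ^ 2 - x i ^ 2) - K * η ^ 3 ≤ Φ →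
      0 < Φ ∧ 0 < ((m : ℝ) + 1) * L + Real.log Φ := by
  have hm' : (2 : ℝ) ≤ m := by exact_mod_cast hm
  obtain ⟨n, hn⟩ : ∃ n : ℝ, n = (m : ℝ) + 1 := ⟨_, rfl⟩
  obtain ⟨c, hc⟩ : ∃ c : ℝ, c = ((m : ℝ) + 1) / (2 * ((m : ℝ) - 1)) := ⟨_, rfl⟩
  obtain ⟨C1, hC1⟩ : ∃ C1 : ℝ, C1 = c * m + K := ⟨_, rfl⟩
  obtain ⟨K', hK'⟩ : ∃ K' : ℝ, K' = K + 2 * C1 ^ 2 := ⟨_, rfl⟩
  obtain ⟨K3, hK3⟩ : ∃ K3 : ℝ, K3 = 2 * n + c * m + K' + 1 := ⟨_, rfl⟩
  obtain ⟨K4, hK4⟩ : ∃ K4 : ℝ, K4 = m * K3 := ⟨_, rfl⟩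
  obtain ⟨d, hd⟩ : ∃ d : ℝ, d = c - n / (2 * m) := ⟨_, rfl⟩
  obtain ⟨E, hE⟩ : ∃ E : ℝ, E = 2 * d * m * K4 ^ 2 + n + K' := ⟨_, rfl⟩
  have m1 : (0 : ℝ) < (m : ℝ) - 1 := by linarith
  have m0 : (0 : ℝ) < (m : ℝ) := by linarith
  have n0 : 0 < n := by linarith
  have c0 : 0 < c := by rw [hc]; positivity
  have C10 : 0 < C1 := by rw [hC1]; positivity
  have K'0 : 0 < K' := by rw [hK']; positivity
  have K30 : 0 < K3 := by rw [hK3]; positivity
  have K40 : 0 < K4 := by rw [hK4]; positivity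
  have d0 : 0 < d := by
    have e : d = n / (2 * m * (m - 1)) := by
      rw [hd, hc, hn]
      field_simp
      ring
    rw [e]; positivity
  have E0 : 0 < E := by rw [hE]; positivity
  refine ⟨min (1 / 2) (min (1 / (2 * C1)) (d / (2 * E))), by positivity, min_le_left _ _, ?_⟩
  intro x y η L Φ η0 ηε hxy hex hsum hL hΦ
  have η1 : η ≤ 1 / 2 := ηε.trans (min_le_left _ _)
  have η2 : C1 * η ≤ 1 / 2 := by
    have h := ηε.trans ((min_le_right _ _).trans (min_le_left _ _))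
    rw [le_div_iff₀ (by positivity)] at h
    linarith
  have η3 : E * η ≤ d / 2 := by
    have h := ηε.trans ((min_le_right _ _).trans (min_le_right _ _))
    rw [le_div_iff₀ (by positivity)] at h
    linarith
  have p2 : 0 < η ^ 2 := by positivity
  have p3 : 0 < η ^ 3 := by positivity
  have e23 : η ^ 3 ≤ η ^ 2 := by
    have : η ^ 3 = η * η ^ 2 := by ring
    rw [this]; nlinarith
  have e12 : η ^ 2 ≤ η := by nlinarith
  have e34 : η ^ 4 ≤ η ^ 3 := by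
    have : η ^ 4 = η * η ^ 3 := by ring
    rw [this]; nlinarith
  obtain ⟨S, hS⟩ : ∃ S : ℝ, S = ∑ i, (y i ^ 2 - x i ^ 2) := ⟨_, rfl⟩
  rw [← hc, ← hS] at hΦ
  have S1 : S ≤ m * η ^ 2 := by
    rw [hS]
    calc ∑ i, (y i ^ 2 - x i ^ 2) ≤ ∑ i : Fin m, η ^ 2 :=
          Finset.sum_le_sum fun i _ => by nlinarith [hxy i, sq_nonneg (x i)]
      _ = m * η ^ 2 := by simp
  have S2 : -(m * η ^ 2) ≤ S := by
    rw [hS]
    calc -((m : ℝ) * η ^ 2) = ∑ i : Fin m, -(η ^ 2) := by simp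
      _ ≤ ∑ i, (y i ^ 2 - x i ^ 2) :=
          Finset.sum_le_sum fun i _ => by nlinarith [hxy i, sq_nonneg (y i)]
  obtain ⟨q, hq⟩ : ∃ q : ℝ, q = c * S - K * η ^ 3 := ⟨_, rfl⟩
  have q1 : q ≤ C1 * η ^ 2 := by
    rw [hq, hC1]
    have := mul_le_mul_of_nonneg_left S1 c0.le
    nlinarith [mul_pos hK p3, mul_pos hK p2]
  have q2 : -(C1 * η ^ 2) ≤ q := by
    rw [hq, hC1]
    have := mul_le_mul_of_nonneg_left S2 c0.le
    nlinarith [mul_le_mul_of_nonneg_left e23 hK.le]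
  have q3 : -(1 / 2) ≤ q := by
    have := mul_le_mul_of_nonneg_left e12 C10.le
    linarith
  have q4 : q ^ 2 ≤ C1 ^ 2 * η ^ 3 := by
    have h : q ^ 2 ≤ (C1 * η ^ 2) ^ 2 := sq_le_sq' q2 q1
    have h' : (C1 * η ^ 2) ^ 2 = C1 ^ 2 * η ^ 4 := by ring
    rw [h'] at h
    exact h.trans (mul_le_mul_of_nonneg_left e34 (by positivity))
  have hlog := log_low q3 (by rw [hq]; linarith : 1 + q ≤ Φ)
  refine ⟨by rw [hq] at q3; linarith, ?_⟩
  have hlog' : c * S - K' * η ^ 3 ≤ Real.log Φ := by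
    have : c * S - K' * η ^ 3 ≤ q - 2 * q ^ 2 := by rw [hK']; rw [hq] at q4 ⊢; nlinarith
    linarith
  obtain ⟨i0, hi0⟩ := hex
  obtain ⟨j, _, hj⟩ := Finset.exists_max_image Finset.univ x ⟨i0, Finset.mem_univ _⟩
  have hj' : ∀ i, x i ≤ x j := fun i => hj i (Finset.mem_univ i)
  rw [← hn]
  rcases le_or_gt (K3 * η ^ 2) (x j) with hX | hX
  · have l1 := hL j
    have l2 : x j - 2 * η ^ 2 ≤ L := by
      nlinarith [hxy j, sq_nonneg (x j)]
    have l3 : n * (x j - 2 * η ^ 2) ≤ n * L := mul_le_mul_of_nonneg_left l2 n0.le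
    have l4 : -(c * m * η ^ 2) ≤ c * S := by
      have := mul_le_mul_of_nonneg_left S2 c0.le
      linarith
    have l5 : K' * η ^ 3 ≤ K' * η ^ 2 := mul_le_mul_of_nonneg_left e23 K'0.le
    have xj0 : 0 ≤ x j := le_trans (by positivity) hX
    have l6 : x j ≤ n * x j := by
      have : 1 ≤ n := by linarith
      nlinarith
    have l7 : K3 * η ^ 2 = 2 * n * η ^ 2 + c * m * η ^ 2 + K' * η ^ 2 + η ^ 2 := by
      rw [hK3]; ring
    nlinarith
  · have X0 : 0 ≤ x j := by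
      by_contra hneg
      push Not at hneg
      have : ∑ i, x i < 0 := by
        apply Finset.sum_neg
        · intro i _
          exact lt_of_le_of_lt (hj' i) hneg
        · exact ⟨i0, Finset.mem_univ _⟩
      linarith
    have low : ∀ i, -(m * x j) ≤ x i := by
      intro i
      have h1 : x j - x i ≤ ∑ k, (x j - x k) :=
        Finset.single_le_sum (f := fun k => x j - x k)
          (fun k _ => sub_nonneg.2 (hj' k)) (Finset.mem_univ i)
      have h2 : ∑ k, (x j - x k) = m * x j := by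
        rw [Finset.sum_sub_distrib, hsum]; simp
      rw [h2] at h1
      linarith
    have xsq : ∀ i, x i ^ 2 ≤ K4 ^ 2 * η ^ 4 := by
      intro i
      have h1 : (m : ℝ) * x j ≤ K4 * η ^ 2 := by
        rw [hK4]
        have := mul_le_mul_of_nonneg_left hX.le m0.le
        linarith
      have h2 : x i ≤ K4 * η ^ 2 := by
        have : x j ≤ m * x j := by nlinarith
        linarith [hj' i]
      have h3 : -(K4 * η ^ 2) ≤ x i := by linarith [low i]
      have h4 : x i ^ 2 ≤ (K4 * η ^ 2) ^ 2 := sq_le_sq' h3 h2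
      have h5 : (K4 * η ^ 2) ^ 2 = K4 ^ 2 * η ^ 4 := by ring
      rwa [h5] at h4
    have S3 : η ^ 2 - 2 * m * K4 ^ 2 * η ^ 4 ≤ S := by
      have h1 : S = ∑ i, (x i ^ 2 + y i ^ 2) - 2 * ∑ i, x i ^ 2 := by
        rw [hS, Finset.mul_sum, ← Finset.sum_sub_distrib]
        apply Finset.sum_congr rfl
        intro i _
        ring
      have h2 : η ^ 2 ≤ ∑ i, (x i ^ 2 + y i ^ 2) := by
        rw [← hi0]
        exact Finset.single_le_sum (f := fun k => x k ^ 2 + y k ^ 2)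
          (fun k _ => by positivity) (Finset.mem_univ i0)
      have h3 : ∑ i, x i ^ 2 ≤ m * (K4 ^ 2 * η ^ 4) := by
        calc ∑ i, x i ^ 2 ≤ ∑ i : Fin m, K4 ^ 2 * η ^ 4 := Finset.sum_le_sum fun i _ => xsq i
          _ = m * (K4 ^ 2 * η ^ 4) := by simp
      rw [h1]
      linarith
    have hmL : -(S / 2) - m * η ^ 3 ≤ m * L := by
      have h1 : ∑ i, (x i + (x i ^ 2 - y i ^ 2) / 2 - η ^ 3) ≤ ∑ i : Fin m, L :=
        Finset.sum_le_sum fun i _ => hL i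
      have h2 : ∑ i : Fin m, L = m * L := by simp
      have h3 : ∑ i, (x i + (x i ^ 2 - y i ^ 2) / 2 - η ^ 3) = -(S / 2) - m * η ^ 3 := by
        rw [Finset.sum_sub_distrib, Finset.sum_add_distrib, hsum, ← Finset.sum_div, hS]
        have : ∑ i, (x i ^ 2 - y i ^ 2) = -∑ i, (y i ^ 2 - x i ^ 2) := by
          rw [← Finset.sum_neg_distrib]
          apply Finset.sum_congr rfl
          intro i _
          ring
        rw [this]
        simp
        ring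
      rw [h2, h3] at h1
      exact h1
    have hT : d * S - (n + K') * η ^ 3 ≤ n * L + Real.log Φ := by
      have h1 : n * (-(S / 2) - m * η ^ 3) ≤ n * (m * L) := mul_le_mul_of_nonneg_left hmL n0.le
      have h2 : m * (c * S - K' * η ^ 3) ≤ m * Real.log Φ :=
        mul_le_mul_of_nonneg_left hlog' m0.le
      have h3 : m * (d * S - (n + K') * η ^ 3) =
          n * (-(S / 2) - m * η ^ 3) + m * (c * S - K' * η ^ 3) := by
        rw [hd]
        field_simp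
        ring
      have h4 : m * (d * S - (n + K') * η ^ 3) ≤ m * (n * L + Real.log Φ) := by
        rw [h3]; linarith
      exact le_of_mul_le_mul_left h4 m0
    have hfin : d * η ^ 2 - E * η ^ 3 ≤ d * S - (n + K') * η ^ 3 := by
      have h1 := mul_le_mul_of_nonneg_left S3 d0.le
      have h2 : 2 * d * m * K4 ^ 2 * η ^ 4 ≤ 2 * d * m * K4 ^ 2 * η ^ 3 :=
        mul_le_mul_of_nonneg_left e34 (by positivity)
      rw [hE]
      linarith
    have hfin2 : E * η ^ 3 ≤ d / 2 * η ^ 2 := by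
      have : E * η ^ 3 = E * η * η ^ 2 := by ring
      rw [this]
      exact mul_le_mul_of_nonneg_right η3 p2.le
    have : 0 < d / 2 * η ^ 2 := by positivity
    linarith

end H335

theorem phi (hA : S_PHIA) (hB : S_PHIB) : S_PHI := by
  intro m hm
  obtain ⟨K, hK, hA⟩ := hA m hm
  obtain ⟨ε, hε, hε2, hcore⟩ := H335.core m hm K hK
  refine ⟨ε, hε, ?_⟩
  intro u hu hsum hne r hr hru
  obtain ⟨k0, hk0⟩ := hne
  obtain ⟨i0, _, hi0⟩ := Finset.exists_max_image Finset.univ (fun i => ‖u i‖)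
    ⟨k0, Finset.mem_univ _⟩
  have hi0' : ∀ i, ‖u i‖ ≤ ‖u i0‖ := fun i => hi0 i (Finset.mem_univ i)
  have η0 : 0 < ‖u i0‖ := lt_of_lt_of_le (norm_pos_iff.2 hk0) (hi0' k0)
  have η1 : ‖u i0‖ ≤ ε := hu i0
  have hsq : ∀ i, (u i).re ^ 2 + (u i).im ^ 2 = ‖u i‖ ^ 2 := by
    intro i
    rw [← Complex.normSq_eq_norm_sq, Complex.normSq_apply]; ring
  have hre : ∀ i, ((u i) ^ 2).re = (u i).re ^ 2 - (u i).im ^ 2 := by
    intro i
    rw [pow_two, Complex.mul_re]; ring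
  have hAu := hA u ‖u i0‖ (by linarith) hi0' hsum
  set Φ : ℂ := ((m : ℂ) + 1) * ∫ t in (0 : ℝ)..1, ∏ i, ((t : ℂ) - u i) with hΦ
  have h1 : 1 + ((m : ℝ) + 1) / (2 * ((m : ℝ) - 1)) * ∑ i, ((u i).im ^ 2 - (u i).re ^ 2) -
      K * ‖u i0‖ ^ 3 ≤ ‖Φ‖ := by
    have h2 : |(Φ - 1 + ((m : ℂ) + 1) / (2 * ((m : ℂ) - 1)) * ∑ i, (u i) ^ 2).re| ≤
        K * ‖u i0‖ ^ 3 := (Complex.abs_re_le_norm _).trans hAu
    have h3 : (Φ - 1 + ((m : ℂ) + 1) / (2 * ((m : ℂ) - 1)) * ∑ i, (u i) ^ 2).re =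
        Φ.re - 1 - ((m : ℝ) + 1) / (2 * ((m : ℝ) - 1)) *
          ∑ i, ((u i).im ^ 2 - (u i).re ^ 2) := by
      have e : ((m : ℂ) + 1) / (2 * ((m : ℂ) - 1)) =
          ((((m : ℝ) + 1) / (2 * ((m : ℝ) - 1)) : ℝ) : ℂ) := by push_cast; rfl
      rw [e, Complex.add_re, Complex.re_ofReal_mul, Complex.re_sum, Complex.sub_re, Complex.one_re]
      have : ∑ i, ((u i) ^ 2).re = -∑ i, ((u i).im ^ 2 - (u i).re ^ 2) := by
        rw [← Finset.sum_neg_distrib]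
        apply Finset.sum_congr rfl
        intro i _
        rw [hre]; ring
      rw [this]; ring
    rw [h3, abs_le] at h2
    have h4 := Complex.re_le_norm Φ
    linarith [h2.1]
  obtain ⟨hΦ0, h5⟩ := hcore (fun i => (u i).re) (fun i => (u i).im) ‖u i0‖ (Real.log r) ‖Φ‖ η0 η1
    (fun i => by
      show (u i).re ^ 2 + (u i).im ^ 2 ≤ _
      rw [hsq]
      exact pow_le_pow_left₀ (norm_nonneg _) (hi0' i) 2)
    ⟨i0, hsq i0⟩
    (by
      have := congrArg Complex.re hsum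
      rw [Complex.re_sum] at this
      simpa using this)
    (fun i => by
      show (u i).re + ((u i).re ^ 2 - (u i).im ^ 2) / 2 - ‖u i0‖ ^ 3 ≤ Real.log r
      have hb := hB (u i) ((hu i).trans hε2)
      rw [hre] at hb
      have hpos : 0 < ‖1 - u i‖ := by
        by_contra hcon
        push Not at hcon
        have : ‖1 - u i‖ = 0 := le_antisymm hcon (norm_nonneg _)
        have h := hru i
        rw [this, mul_zero] at h
        linarith
      have hl : 0 ≤ Real.log r + Real.log ‖1 - u i‖ := by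
        rw [← Real.log_mul hr.ne' hpos.ne']
        exact Real.log_nonneg (hru i)
      have h3 : ‖u i‖ ^ 3 ≤ ‖u i0‖ ^ 3 := pow_le_pow_left₀ (norm_nonneg _) (hi0' i) 3
      linarith)
    h1
  have h6 : 0 < Real.log (r ^ (m + 1) * ‖Φ‖) := by
    rw [Real.log_mul (by positivity) hΦ0.ne', Real.log_pow]
    push_cast
    exact h5
  exact (Real.log_pos_iff (by positivity)).1 h6

end Pool.Agent.N795.BV
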