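import Pool.Agent.N979.CP.Stm4
import Pool.Agent.N526.CP.SPH
import Pool.Agent.N526.CP.MON
import Pool.Agent.N526.CP.RAD
import Pool.Agent.N526.CP.INV
import Pool.Agent.N526.CP.LIP

/-!
# FB/LIPG: Lipschitz properties of the maps (helper335; adapted from N526/CP/LIP.lean by helper490)
-/

set_option autoImplicit false

open MeasureTheory Metric Set Filter Topology InnerProductGeometry Matrix

namespace Pool.Agent.N335.FBLIPG

open Pool.Agent.H241R3.FV Pool.Agent.N526.CP Pool.Agent.N979.CP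
open Pool.Agent.N526.CP.LIP (asin_lip ip_le ip_sub ip_smul Uf_lip Hf_lip)

section

variable {d : ℕ} {M : Type} [MetricSpace M] {S : OFill (d + 1) M} {s t R : ℝ}
  {g : Sph (d + 1) → M → ℝ}

theorem cont_g (hR : 0 < R) (hg : FamG S s t R g) :
    Continuous (fun z : Sph (d + 1) × M => g z.1 z.2) := by
  obtain ⟨C, hC⟩ := hg.lipθ
  have h1 : LipschitzWith (Real.toNNReal C + Real.toNNReal R⁻¹) (Function.uncurry g) := by
    refine LipschitzWith.uncurry (fun q => ?_) (fun θ => ?_)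
    · refine LipschitzWith.of_dist_le' fun θ θ' => ?_
      rw [Real.dist_eq, Subtype.dist_eq, dist_eq_norm]
      exact hC θ θ' q
    · refine LipschitzWith.of_dist_le' fun q q' => ?_
      rw [Real.dist_eq]
      refine (hg.lip θ q q').trans (le_of_eq ?_)
      rw [div_eq_inv_mul]
  exact h1.continuous

theorem cont_int (hR : 0 < R) (hg : FamG S s t R g) (q : M) :
    Continuous (fun θ : Sph (d + 1) => g θ q • (θ : E (d + 1))) := by
  have h1 : Continuous (fun θ : Sph (d + 1) => g θ q) :=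
    (cont_g hR hg).comp (Continuous.prodMk continuous_id continuous_const)
  exact h1.smul continuous_subtype_val

theorem int_lip [IsProbabilityMeasure (sg (d + 1))] (hR : 0 < R) (hg : FamG S s t R g)
    (q q' : M) :
    ‖∫ θ : Sph (d + 1), g θ q • (θ : E (d + 1)) ∂(sg (d + 1)) -
      ∫ θ : Sph (d + 1), g θ q' • (θ : E (d + 1)) ∂(sg (d + 1))‖ ≤ dist q q' / R := by
  have hint : ∀ q, Integrable (fun θ : Sph (d + 1) => g θ q • (θ : E (d + 1))) (sg (d + 1)) :=
    fun q => (cont_int hR hg q).integrable_of_hasCompactSupport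
      (HasCompactSupport.of_compactSpace _)
  rw [← integral_sub (hint q) (hint q')]
  have h1 := norm_integral_le_of_norm_le_const (μ := sg (d + 1)) (C := dist q q' / R)
    (f := fun θ : Sph (d + 1) => g θ q • (θ : E (d + 1)) - g θ q' • (θ : E (d + 1)))
    (Eventually.of_forall fun θ => by
      rw [← sub_smul, norm_smul, norm_sph, mul_one, Real.norm_eq_abs]
      exact hg.lip θ q q')
  rwa [probReal_univ, mul_one] at h1

end

theorem main : S_LIPG := by
  intro d hd M _ _ S s t R g hPar hg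
  obtain ⟨hs0, hs1, ht0, ht1, hR, hz⟩ := hPar
  have hSPH : S_SPH := SPH.t
  have hMON : S_MON := MON.t hSPH
  have hRAD : S_RAD := RAD.t hSPH hMON
  have hINV : S_INV := INV.t hRAD hMON
  obtain ⟨hP, -, -⟩ := hSPH d hd
  obtain ⟨r1, -, -, -⟩ := hRAD d hd
  obtain ⟨i1, i2, i3⟩ := hINV d hd
  have hXn : ∀ q, ‖Xf g q‖ ≤ s := fun q => (i2 s hs0 hs1 _ (hg.range q)).1
  have hXl : ∀ q q', ‖Xf g q - Xf g q'‖ ≤ ((d + 1) / R) * dist q q' := by
    intro q q'
    refine (i3 s hs0 hs1 _ _ (hg.range q) (hg.range q')).trans ?_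
    refine (mul_le_mul_of_nonneg_left (int_lip hR hg q q') (by positivity)).trans (le_of_eq ?_)
    ring
  obtain ⟨c, hcdef⟩ : ∃ c, c = (√(1 - s ^ 2))⁻¹ := ⟨_, rfl⟩
  have hc0 : 0 ≤ c := by rw [hcdef]; positivity
  obtain ⟨b, hbdef⟩ : ∃ b, b = (√(1 - t ^ 2))⁻¹ := ⟨_, rfl⟩
  have hb0 : 0 ≤ b := by rw [hbdef]; positivity
  obtain ⟨K1, hK1def⟩ : ∃ K1, K1 = 2 * c + 4 * c ^ 3 := ⟨_, rfl⟩
  obtain ⟨K2, hK2def⟩ : ∃ K2, K2 = 2 + c * (c + 4 * c ^ 3) := ⟨_, rfl⟩
  have hK1 : 0 ≤ K1 := by rw [hK1def]; positivity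
  have hK2 : 0 ≤ K2 := by rw [hK2def]; positivity
  have hU : ∀ (θ : Sph (d + 1)) (X Y : E (d + 1)), ‖X‖ ≤ s → ‖Y‖ ≤ s →
      ‖Uf θ X - Uf θ Y‖ ≤ K1 * ‖X - Y‖ := by
    intro θ X Y hX hY
    have h1 := Uf_lip hs0 hs1 θ hX hY
    rw [← hcdef, ← hK1def] at h1
    exact h1
  have hH : ∀ (X Y : E (d + 1)), ‖X‖ ≤ s → ‖Y‖ ≤ s →
      ‖Hf X - Hf Y‖ ≤ K2 * ‖X - Y‖ := by
    intro X Y hX hY
    have h1 := Hf_lip hs0 hs1 hX hY
    rw [← hcdef, ← hK2def] at h1
    exact h1
  have hsY : ∀ y ∈ closedBall (0 : E (d + 1)) 1, ‖s • y‖ ≤ s := by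
    intro y hy
    rw [norm_smul, Real.norm_eq_abs, abs_of_pos hs0]
    have h1 : ‖y‖ ≤ 1 := mem_closedBall_zero_iff.1 hy
    nlinarith
  have htY : ∀ y ∈ closedBall (0 : E (d + 1)) 1, ‖t • y‖ ≤ t := by
    intro y hy
    rw [norm_smul, Real.norm_eq_abs, abs_of_pos ht0]
    have h1 : ‖y‖ ≤ 1 := mem_closedBall_zero_iff.1 hy
    nlinarith
  have hsd : ∀ y y' : E (d + 1), ‖s • y - s • y'‖ ≤ ‖y - y'‖ := by
    intro y y'
    rw [← smul_sub, norm_smul, Real.norm_eq_abs, abs_of_pos hs0]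
    nlinarith [norm_nonneg (y - y')]
  have htd : ∀ y y' : E (d + 1), ‖t • y - t • y'‖ ≤ ‖y - y'‖ := by
    intro y y'
    rw [← smul_sub, norm_smul, Real.norm_eq_abs, abs_of_pos ht0]
    nlinarith [norm_nonneg (y - y')]
  have hbd : ∀ x : Sph (d + 1), Xf g (S.bd x) = s • (x : E (d + 1)) := by
    intro x
    have hx1 : ‖(x : E (d + 1))‖ = 1 := norm_sph x
    have h1 : ∫ θ : Sph (d + 1), g θ (S.bd x) • (θ : E (d + 1)) ∂(sg (d + 1)) =
        Zf (s • (x : E (d + 1))) := by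
      have h2 : ∫ θ : Sph (d + 1), g θ (S.bd x) • (θ : E (d + 1)) ∂(sg (d + 1)) =
          R⁻¹ • Zf (t • (x : E (d + 1))) := by
        unfold Zf
        rw [← integral_smul]
        congr 1
        funext θ
        rw [hg.bdv, ip_smul, smul_smul, div_eq_inv_mul]
        rfl
      rw [h2, r1 t _ hx1, r1 s _ hx1, hz, smul_smul, ← mul_assoc, inv_mul_cancel₀ hR.ne',
        one_mul]
    unfold Xf
    rw [h1]
    apply i1
    rw [norm_smul, norm_sph, mul_one, Real.norm_eq_abs, abs_of_pos hs0]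
    exact hs1
  obtain ⟨D, hDdef⟩ : ∃ D : ℝ, D = (d + 1) / R := ⟨_, rfl⟩
  have hD : (0 : ℝ) ≤ D := by rw [hDdef]; positivity
  rw [← hDdef] at hXl
  obtain ⟨K, hK⟩ : ∃ K : ℝ, K = K1 * D + K2 * D + K1 + K2 + b / R + 1 / R := ⟨_, rfl⟩
  have hKp : 0 ≤ K := by rw [hK]; positivity
  have p1 : 0 ≤ K1 * D := by positivity
  have p2 : 0 ≤ K2 * D := by positivity
  have p3 : 0 ≤ b / R := by positivity
  have p4 : 0 ≤ 1 / R := by positivity
  refine ⟨⟨K, hKp⟩, fun θ => ?_, ?_, fun θ => ?_, ?_, fun θ x => ?_, fun x => ?_, ?_⟩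
  · refine LipschitzWith.of_dist_le_mul fun q q' => ?_
    rw [dist_eq_norm]
    change ‖Psi g θ q - Psi g θ q'‖ ≤ K * dist q q'
    have e : Psi g θ q - Psi g θ q' = (Uf θ (Xf g q) - Uf θ (Xf g q')) +
        (g θ q - g θ q') • (θ : E (d + 1)) := by
      unfold Psi
      module
    rw [e]
    calc ‖(Uf θ (Xf g q) - Uf θ (Xf g q')) + (g θ q - g θ q') • (θ : E (d + 1))‖ ≤
        ‖Uf θ (Xf g q) - Uf θ (Xf g q')‖ + ‖(g θ q - g θ q') • (θ : E (d + 1))‖ :=
          norm_add_le _ _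
      _ = ‖Uf θ (Xf g q) - Uf θ (Xf g q')‖ + |g θ q - g θ q'| := by
          rw [norm_smul, norm_sph, mul_one, Real.norm_eq_abs]
      _ ≤ K1 * (D * dist q q') + dist q q' / R :=
          add_le_add ((hU θ _ _ (hXn q) (hXn q')).trans
            (mul_le_mul_of_nonneg_left (hXl q q') hK1)) (hg.lip θ q q')
      _ = (K1 * D + 1 / R) * dist q q' := by ring
      _ ≤ K * dist q q' := mul_le_mul_of_nonneg_right (by rw [hK]; linarith) dist_nonneg
  · refine LipschitzWith.of_dist_le_mul fun q q' => ?_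
    rw [dist_eq_norm]
    change ‖Hf (Xf g q) - Hf (Xf g q')‖ ≤ K * dist q q'
    calc ‖Hf (Xf g q) - Hf (Xf g q')‖ ≤ K2 * (D * dist q q') :=
          (hH _ _ (hXn q) (hXn q')).trans (mul_le_mul_of_nonneg_left (hXl q q') hK2)
      _ = (K2 * D) * dist q q' := by ring
      _ ≤ K * dist q q' := mul_le_mul_of_nonneg_right (by rw [hK]; linarith) dist_nonneg
  · refine LipschitzOnWith.of_dist_le_mul fun y hy y' hy' => ?_
    rw [dist_eq_norm, dist_eq_norm]
    change ‖Psi0G s t R θ y - Psi0G s t R θ y'‖ ≤ K * ‖y - y'‖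
    have e : Psi0G s t R θ y - Psi0G s t R θ y' = (Uf θ (s • y) - Uf θ (s • y')) +
        ((Real.arcsin (ip (t • y) θ) - Real.arcsin (ip (t • y') θ)) / R) •
          (θ : E (d + 1)) := by
      unfold Psi0G
      rw [ip_smul, ip_smul, sub_div]
      module
    have h1 : |(Real.arcsin (ip (t • y) θ) - Real.arcsin (ip (t • y') θ)) / R| ≤
        b / R * ‖y - y'‖ := by
      have h2 := asin_lip ht0 ht1 ((ip_le (t • y) θ).trans (htY y hy))
        ((ip_le (t • y') θ).trans (htY y' hy'))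
      rw [← hbdef, ip_sub] at h2
      rw [abs_div, abs_of_pos hR, div_le_iff₀ hR]
      refine (h2.trans (mul_le_mul_of_nonneg_left ((ip_le _ _).trans (htd y y')) hb0)).trans
        (le_of_eq ?_)
      field_simp
    rw [e]
    calc ‖(Uf θ (s • y) - Uf θ (s • y')) +
        ((Real.arcsin (ip (t • y) θ) - Real.arcsin (ip (t • y') θ)) / R) • (θ : E (d + 1))‖ ≤
        ‖Uf θ (s • y) - Uf θ (s • y')‖ +
        ‖((Real.arcsin (ip (t • y) θ) - Real.arcsin (ip (t • y') θ)) / R) •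
          (θ : E (d + 1))‖ :=
          norm_add_le _ _
      _ = ‖Uf θ (s • y) - Uf θ (s • y')‖ +
        |(Real.arcsin (ip (t • y) θ) - Real.arcsin (ip (t • y') θ)) / R| := by
          rw [norm_smul, norm_sph, mul_one, Real.norm_eq_abs]
      _ ≤ K1 * ‖y - y'‖ + b / R * ‖y - y'‖ :=
          add_le_add ((hU θ _ _ (hsY y hy) (hsY y' hy')).trans
            (mul_le_mul_of_nonneg_left (hsd y y') hK1)) h1
      _ = (K1 + b / R) * ‖y - y'‖ := by ring
      _ ≤ K * ‖y - y'‖ := mul_le_mul_of_nonneg_right (by rw [hK]; linarith) (norm_nonneg _)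
  · refine LipschitzOnWith.of_dist_le_mul fun y hy y' hy' => ?_
    rw [dist_eq_norm, dist_eq_norm]
    change ‖Hf (s • y) - Hf (s • y')‖ ≤ K * ‖y - y'‖
    calc ‖Hf (s • y) - Hf (s • y')‖ ≤ K2 * ‖y - y'‖ :=
          (hH _ _ (hsY y hy) (hsY y' hy')).trans (mul_le_mul_of_nonneg_left (hsd y y') hK2)
      _ ≤ K * ‖y - y'‖ := mul_le_mul_of_nonneg_right (by rw [hK]; linarith) (norm_nonneg _)
  · unfold Psi Psi0G
    rw [hbd, hg.bdv]
    rfl
  · rw [hbd]
  · have c1 : Continuous (fun z : Sph (d + 1) × M => Xf g z.2) := by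
      have h1 : LipschitzWith ⟨D, hD⟩ (Xf g) :=
        LipschitzWith.of_dist_le_mul fun q q' => by
          rw [dist_eq_norm]
          exact hXl q q'
      exact h1.continuous.comp continuous_snd
    have c2 : Continuous (fun z : Sph (d + 1) × M => (z.1 : E (d + 1))) :=
      continuous_subtype_val.comp continuous_fst
    have c3 : Continuous (fun z : Sph (d + 1) × M => ip (Xf g z.2) z.1) := by
      unfold ip
      exact c1.inner c2
    have c4 : Continuous (fun z : Sph (d + 1) × M => (√(1 - ip (Xf g z.2) z.1 ^ 2))⁻¹) := by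
      refine Continuous.inv₀ (Real.continuous_sqrt.comp (continuous_const.sub (c3.pow 2))) ?_
      intro z
      have h1 : |ip (Xf g z.2) z.1| ≤ s := (ip_le _ _).trans (hXn _)
      have h2 : ip (Xf g z.2) z.1 ^ 2 ≤ s ^ 2 := by
        rw [sq_le_sq, abs_of_pos hs0]
        exact h1
      exact (Real.sqrt_pos.2 (by nlinarith)).ne'
    unfold Psi Uf
    exact (c4.smul (c1.sub (c3.smul c2))).add ((cont_g hR hg).smul c2)

end Pool.Agent.N335.FBLIPG
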