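import Mathlib

/-!
Project MX (helper576), part ROLLE (helper335): real exponential sums have few zeros.
-/

set_option autoImplicit false

namespace Pool.Agent.N335.MXRolle

open Finset

theorem rolle_finset (f f' : ℝ → ℝ) (hf : ∀ t, HasDerivAt f (f' t) t) (Z : Finset ℝ) :
    (∀ t ∈ Z, f t = 0) → ∃ Z' : Finset ℝ, (∀ t ∈ Z', f' t = 0) ∧ Z.card ≤ Z'.card + 1 ∧
      ∀ t ∈ Z', ∃ z ∈ Z, t < z := by
  classical
  induction Z using Finset.induction_on_max with
  | empty => intro _; exact ⟨∅, by simp, by simp, by simp⟩
  | insert a s ha ih =>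
    intro hz
    obtain ⟨Z', h1, h2, h3⟩ := ih (fun t ht => hz t (Finset.mem_insert_of_mem ht))
    rcases s.eq_empty_or_nonempty with rfl | hs
    · exact ⟨∅, by simp, by simp, by simp⟩
    · have hb : s.max' hs ∈ s := s.max'_mem hs
      have hba : s.max' hs < a := ha _ hb
      obtain ⟨c, hc, hc0⟩ := exists_hasDerivAt_eq_zero (f := f) (f' := f') hba
        (fun x _ => (hf x).continuousAt.continuousWithinAt)
        (by rw [hz _ (Finset.mem_insert_of_mem hb), hz a (Finset.mem_insert_self _ _)])
        (fun x _ => hf x)
      have hcZ : c ∉ Z' := by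
        intro hcm
        obtain ⟨z, hz', hlt⟩ := h3 c hcm
        have h4 := s.le_max' z hz'
        linarith [hc.1]
      have haS : a ∉ s := fun h => lt_irrefl a (ha a h)
      refine ⟨insert c Z', ?_, ?_, ?_⟩
      · intro t ht
        rcases Finset.mem_insert.mp ht with rfl | ht
        · exact hc0
        · exact h1 t ht
      · rw [Finset.card_insert_of_notMem haS, Finset.card_insert_of_notMem hcZ]
        omega
      · intro t ht
        rcases Finset.mem_insert.mp ht with rfl | ht
        · exact ⟨a, Finset.mem_insert_self _ _, hc.2⟩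
        · obtain ⟨z, hz', hlt⟩ := h3 t ht
          exact ⟨z, Finset.mem_insert_of_mem hz', hlt⟩

theorem distinct (O : Finset ℝ) : ∀ (c : ℝ → ℝ) (Z : Finset ℝ),
    (∀ t ∈ Z, ∑ o ∈ O, c o * Real.exp (o * t) = 0) → O.card ≤ Z.card → ∀ o ∈ O, c o = 0 := by
  classical
  induction O using Finset.induction_on with
  | empty => intro c Z _ _ o ho; simp at ho
  | insert o₀ O h0 ih =>
    intro c Z hZ hc
    rw [Finset.card_insert_of_notMem h0] at hc
    have hf : ∀ t : ℝ, HasDerivAt
        (fun t : ℝ => c o₀ + ∑ o ∈ O, c o * Real.exp ((o - o₀) * t))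
        (∑ o ∈ O, c o * (o - o₀) * Real.exp ((o - o₀) * t)) t := by
      intro t
      have h1 : HasDerivAt (fun t : ℝ => ∑ o ∈ O, c o * Real.exp ((o - o₀) * t))
          (∑ o ∈ O, c o * (o - o₀) * Real.exp ((o - o₀) * t)) t := by
        have h2 : ∀ o ∈ O, HasDerivAt (fun t : ℝ => c o * Real.exp ((o - o₀) * t))
            (c o * (o - o₀) * Real.exp ((o - o₀) * t)) t := by
          intro o _
          have h3 := ((((hasDerivAt_id t).const_mul (o - o₀)).exp).const_mul (c o))
          refine h3.congr_deriv ?_
          simp only [id, mul_one]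
          ring
        have h3 := HasDerivAt.sum h2
        refine h3.congr_of_eventuallyEq ?_
        exact Filter.Eventually.of_forall fun x => by simp
      exact h1.const_add _
    have hZ' : ∀ t ∈ Z, c o₀ + ∑ o ∈ O, c o * Real.exp ((o - o₀) * t) = 0 := by
      intro t ht
      have h1 := hZ t ht
      rw [Finset.sum_insert h0] at h1
      have h2 : c o₀ + ∑ o ∈ O, c o * Real.exp ((o - o₀) * t)
          = Real.exp (-(o₀ * t)) * (c o₀ * Real.exp (o₀ * t)
            + ∑ o ∈ O, c o * Real.exp (o * t)) := by
        rw [mul_add, Finset.mul_sum]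
        congr 1
        · rw [mul_left_comm, ← Real.exp_add, neg_add_cancel, Real.exp_zero, mul_one]
        · refine Finset.sum_congr rfl fun o _ => ?_
          rw [mul_left_comm, ← Real.exp_add]
          congr 2
          ring
      rw [h2, h1, mul_zero]
    obtain ⟨Z', h1, h2, -⟩ := rolle_finset _ _ hf Z hZ'
    have h3 := ih (fun o => c o * (o - o₀)) Z' (fun t ht => by
      have h4 := h1 t ht
      have h5 : ∑ o ∈ O, c o * (o - o₀) * Real.exp (o * t)
          = Real.exp (o₀ * t) * ∑ o ∈ O, c o * (o - o₀) * Real.exp ((o - o₀) * t) := by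
        rw [Finset.mul_sum]
        refine Finset.sum_congr rfl fun o _ => ?_
        rw [mul_left_comm, ← Real.exp_add]
        congr 2
        ring
      rw [h5, h4, mul_zero]) (by omega)
    have h4 : ∀ o ∈ O, c o = 0 := by
      intro o ho
      have h5 := h3 o ho
      have h6 : o - o₀ ≠ 0 := by
        intro h7
        have : o = o₀ := by linarith
        exact h0 (this ▸ ho)
      exact (mul_eq_zero.mp h5).resolve_right h6
    intro o ho
    rcases Finset.mem_insert.mp ho with rfl | ho
    · have hpos : 0 < Z.card := by omega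
      obtain ⟨t, ht⟩ := Finset.card_pos.mp hpos
      have h5 := hZ' t ht
      rw [Finset.sum_eq_zero (fun x hx => by rw [h4 x hx, zero_mul]), add_zero] at h5
      exact h5
    · exact h4 o ho

open Classical in
/-- A real exponential sum with at least as many zeros as terms vanishes identically. -/
theorem exp_zeros {ι : Type*} [Fintype ι] (a w : ι → ℝ) (Z : Finset ℝ)
    (hZ : ∀ t ∈ Z, ∑ i, a i * Real.exp (w i * t) = 0) (hc : Fintype.card ι ≤ Z.card) :
    ∀ v : ℝ, ∑ i, (if w i = v then a i else 0) = 0 := by
  intro v
  have h1 := distinct (Finset.univ.image w) (fun v => ∑ i, (if w i = v then a i else 0)) Z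
    (fun t ht => by
      have h2 : ∑ o ∈ Finset.univ.image w, (∑ i, (if w i = o then a i else 0)) * Real.exp (o * t)
          = ∑ i, a i * Real.exp (w i * t) := by
        simp_rw [Finset.sum_mul]
        rw [Finset.sum_comm]
        refine Finset.sum_congr rfl fun i _ => ?_
        rw [Finset.sum_eq_single (w i)]
        · rw [if_pos rfl]
        · intro b _ hb
          rw [if_neg (Ne.symm hb), zero_mul]
        · intro h
          exact absurd (Finset.mem_image_of_mem w (Finset.mem_univ i)) h
      rw [h2]
      exact hZ t ht) (Finset.card_image_le.trans hc)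
  by_cases hv : v ∈ Finset.univ.image w
  · exact h1 v hv
  · refine Finset.sum_eq_zero fun i _ => ?_
    rw [if_neg]
    rintro rfl
    exact hv (Finset.mem_image_of_mem w (Finset.mem_univ i))

end Pool.Agent.N335.MXRolle
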